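import Pool.Agent.L7h31.CP.Stm

/-!
# Project CP, parts INT and DIS
-/

set_option autoImplicit false

namespace Pool.Agent.L7h66.CP

open scoped BigOperators Topology
open Pool.Agent.L7h31.CE (E mk hor ver S_DST)
open Pool.Agent.L7h31.CP

lemma small {r : ℕ} {A : Set (E r)} {z : E r} (hz : z ∈ interior A) (w : E r) :
    ∃ t : ℝ, 0 < t ∧ z + t • w ∈ A ∧ z + (-t) • w ∈ A := by
  have h1 : A ∈ 𝓝 z := mem_interior_iff_mem_nhds.1 hz
  have h2 : Filter.Tendsto (fun t : ℝ => z + t • w) (𝓝 0) (𝓝 z) := by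
    have : Continuous fun t : ℝ => z + t • w := by fun_prop
    have h := this.tendsto 0
    simpa using h
  obtain ⟨ε, hε, h⟩ := Metric.eventually_nhds_iff.1 (h2.eventually h1)
  refine ⟨ε / 2, by positivity, h ?_, h ?_⟩
  · rw [Real.dist_eq, sub_zero, abs_of_pos (by positivity)]; linarith
  · rw [Real.dist_eq, sub_zero, abs_neg, abs_of_pos (by positivity)]; linarith

lemma hor_add {r : ℕ} (z w : E r) (t : ℝ) (a : Fin r) :
    hor (z + t • w) a = hor z a + t * hor w a := by
  simp [hor]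

lemma ver_add {r : ℕ} (z w : E r) (t : ℝ) : ver (z + t • w) = ver z + t * ver w := by
  simp [ver]

theorem s_INT (h : S_DST) : S_INT := by
  intro r i ν z hz
  have hv : (i : ℝ) < ver z ∧ ver z < i + 1 := by
    obtain ⟨t, ht, h1, h2⟩ := small hz (mk 0 1)
    have e := ((h r).1 0 1).2
    have h3 := h1.2.1
    have h4 := h2.1
    rw [ver_add, e] at h3 h4
    constructor <;> linarith
  refine ⟨hv.1, hv.2, fun a => ?_⟩
  obtain ⟨t, ht, h1, h2⟩ := small hz (mk (Pi.single a 1) 0)
  have e := ((h r).1 (Pi.single a 1) 0).2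
  have e' := ((h r).1 (Pi.single a 1) 0).1 a
  rw [Pi.single_eq_same] at e'
  have h3 := (h1.2.2 a).2
  have h4 := (h2.2.2 a).1
  unfold lc at h3 h4 ⊢
  rw [hor_add, ver_add, e, e'] at h3 h4
  constructor <;> linarith

theorem s_DIS (h : S_INT) : S_DIS := by
  intro r i j ν μ hne
  rw [Set.disjoint_left]
  intro z hz hz'
  apply hne
  obtain ⟨h1, h2, h3⟩ := h r i ν z hz
  obtain ⟨k1, k2, k3⟩ := h r j μ z hz'
  have hij : i = j := by
    have a1 : (i : ℝ) < j + 1 := by linarith
    have a2 : (j : ℝ) < i + 1 := by linarith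
    have b1 : i < j + 1 := by exact_mod_cast a1
    have b2 : j < i + 1 := by exact_mod_cast a2
    omega
  subst hij
  have : ν = μ := by
    funext a
    have a1 : (ν a : ℝ) < μ a + 1 := by linarith [(h3 a).1, (k3 a).2]
    have a2 : (μ a : ℝ) < ν a + 1 := by linarith [(h3 a).2, (k3 a).1]
    have b1 : ν a < μ a + 1 := by exact_mod_cast a1
    have b2 : μ a < ν a + 1 := by exact_mod_cast a2
    omega
  rw [this]

end Pool.Agent.L7h66.CP
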